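import Mathlib
import Pool.Agent.TH166.TP.J

set_option autoImplicit false

/-!
# Every nonsingular dividing real plane curve admits a total pencil
-/

open MvPolynomial
open scoped LinearAlgebra.Projectivization

namespace Pool.Agent.Results.MP_42957e_ag.TotalPencil

/-- The complexification of a real polynomial in three variables. -/
noncomputable def cplx (F : MvPolynomial (Fin 3) ℝ) : MvPolynomial (Fin 3) ℂ :=
  map (algebraMap ℝ ℂ) F

/-- The zero set of a real form in the complex projective plane. -/
def zeroSet (F : MvPolynomial (Fin 3) ℝ) : Set (ℙ ℂ (Fin 3 → ℂ)) :=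
  {p | eval p.rep (cplx F) = 0}

/-- The real projective plane, as a subset of the complex projective plane. -/
def RP2 : Set (ℙ ℂ (Fin 3 → ℂ)) :=
  {p | ∃ (w : Fin 3 → ℝ) (h : (fun i => (w i : ℂ)) ≠ 0),
    p = Projectivization.mk ℂ (fun i => (w i : ℂ)) h}

/-- `F` is a real form of positive degree `m` without singular points in the complex
projective plane. -/
def IsNonsingularCurve (m : ℕ) (F : MvPolynomial (Fin 3) ℝ) : Prop :=
  0 < m ∧ F.IsHomogeneous m ∧ ∀ v : Fin 3 → ℂ, v ≠ 0 → eval v (cplx F) = 0 →
    ∃ i, eval v (pderiv i (cplx F)) ≠ 0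

/-- The quotient topology on the complex projective plane. -/
@[reducible]
noncomputable def quotientTopology : TopologicalSpace (ℙ ℂ (Fin 3 → ℂ)) :=
  TopologicalSpace.coinduced
    (fun v : {v : Fin 3 → ℂ // v ≠ 0} => Projectivization.mk ℂ v.1 v.2) inferInstance

/-- The curve `F = 0` is dividing: its complex points minus its real points form a
disconnected set. -/
def IsDividing (F : MvPolynomial (Fin 3) ℝ) : Prop :=
  ¬ @IsPreconnected (ℙ ℂ (Fin 3 → ℂ)) quotientTopology (zeroSet F \ RP2)

/-- The pencil spanned by the real forms `G`, `H` of degree `d` is a total pencil for the curve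
`F = 0`: no complex member has a common component with the curve, and every real member meets the
curve in real points only. -/
def IsTotalPencil (F : MvPolynomial (Fin 3) ℝ) (d : ℕ) (G H : MvPolynomial (Fin 3) ℝ) : Prop :=
  G.IsHomogeneous d ∧ H.IsHomogeneous d ∧
  (∀ a b : ℂ, (a ≠ 0 ∨ b ≠ 0) → IsRelPrime (C a * cplx G + C b * cplx H) (cplx F)) ∧
  ∀ a b : ℝ, (a ≠ 0 ∨ b ≠ 0) → zeroSet F ∩ zeroSet (C a * G + C b * H) ⊆ RP2

open Pool.Agent.TH166.TP

/-- real part of a complex polynomial, coefficientwise -/
noncomputable def reP (s : Sx) : MvPolynomial (Fin 3) ℝ :=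
  ∑ d ∈ s.support, monomial d (coeff d s).re

/-- imaginary part of a complex polynomial, coefficientwise -/
noncomputable def imP (s : Sx) : MvPolynomial (Fin 3) ℝ :=
  ∑ d ∈ s.support, monomial d (coeff d s).im

theorem coeff_reP (s : Sx) (d : Fin 3 →₀ ℕ) : coeff d (reP s) = (coeff d s).re := by
  rw [reP, coeff_sum]
  simp only [coeff_monomial]
  rw [Finset.sum_ite_eq']
  split_ifs with h
  · rfl
  · rw [notMem_support_iff.1 h, Complex.zero_re]

theorem coeff_imP (s : Sx) (d : Fin 3 →₀ ℕ) : coeff d (imP s) = (coeff d s).im := by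
  rw [imP, coeff_sum]
  simp only [coeff_monomial]
  rw [Finset.sum_ite_eq']
  split_ifs with h
  · rfl
  · rw [notMem_support_iff.1 h, Complex.zero_im]

theorem reP_homog {s : Sx} {n : ℕ} (hs : s.IsHomogeneous n) : (reP s).IsHomogeneous n := by
  intro d hd
  apply hs
  rw [coeff_reP] at hd
  intro h
  rw [h] at hd
  exact hd Complex.zero_re

theorem imP_homog {s : Sx} {n : ℕ} (hs : s.IsHomogeneous n) : (imP s).IsHomogeneous n := by
  intro d hd
  apply hs
  rw [coeff_imP] at hd
  intro h
  rw [h] at hd
  exact hd Complex.zero_im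

theorem cplx_add (s : Sx) : cplx (reP s) + C Complex.I * cplx (imP s) = s := by
  apply MvPolynomial.ext
  intro d
  rw [coeff_add, coeff_C_mul, cplx, cplx, coeff_map, coeff_map, coeff_reP, coeff_imP]
  show ((coeff d s).re : ℂ) + Complex.I * ((coeff d s).im : ℂ) = coeff d s
  rw [mul_comm]
  exact Complex.re_add_im _

theorem cplx_sub (s : Sx) : cplx (reP s) - C Complex.I * cplx (imP s) = cj s := by
  apply MvPolynomial.ext
  intro d
  rw [coeff_sub, coeff_C_mul, cplx, cplx, coeff_map, coeff_map, coeff_reP, coeff_imP, cj,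
    coeff_map]
  show ((coeff d s).re : ℂ) - Complex.I * ((coeff d s).im : ℂ) = starRingEnd ℂ (coeff d s)
  apply Complex.ext
  · simp
  · simp

theorem result (m : ℕ) (F : MvPolynomial (Fin 3) ℝ) (hF : IsNonsingularCurve m F)
    (hdiv : IsDividing F) : ∃ (d : ℕ) (G H : MvPolynomial (Fin 3) ℝ), IsTotalPencil F d G H := by
  let Γ : Curve :=
    { m := m
      F := cplx F
      hm := hF.1
      hF := hF.2.1.map _
      ns := hF.2.2 }
  have hΓ : Γ.IsReal := by
    show cj (cplx F) = cplx F
    have h1 : (starRingEnd ℂ).comp (algebraMap ℝ ℂ) = algebraMap ℝ ℂ := by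
      ext x
      simp
    rw [cj, cplx, map_map, h1]
  have hdiv' : Γ.Dividing := by
    intro hpre
    apply hdiv
    have hc : Continuous (fun p : Γ.Pt => (p.1 : CP2)) := continuous_induced_dom
    have h1 := hpre.image _ hc.continuousOn
    have h2 : (fun p : Γ.Pt => (p.1 : CP2)) '' Γ.RPtᶜ = zeroSet F \ RP2 := by
      ext p
      constructor
      · rintro ⟨x, hx, rfl⟩
        exact ⟨x.2, hx⟩
      · rintro ⟨h3, h4⟩
        exact ⟨⟨p, h3⟩, h4, rfl⟩
    rw [h2] at h1
    exact h1
  obtain ⟨d, s, hs, hnorm, z, hz, hsz⟩ := Curve.exists_total hΓ hdiv'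
  refine ⟨d, reP s, imP s, reP_homog hs, imP_homog hs, ?_, ?_⟩
  · intro a b hab
    apply Γ.isRelPrime
    intro hdvd
    obtain ⟨k, hk⟩ := hdvd
    have hkF : ∀ v : Fin 3 → ℂ, eval v Γ.F = 0 →
        a * eval v (cplx (reP s)) + b * eval v (cplx (imP s)) = 0 := by
      intro v hv
      have h1 := congrArg (eval v) hk
      simpa [hv] using h1
    have e1 : ∀ v : Fin 3 → ℂ, eval v s =
        eval v (cplx (reP s)) + Complex.I * eval v (cplx (imP s)) := by
      intro v
      conv_lhs => rw [← cplx_add s]
      simp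
    have e2 : ∀ v : Fin 3 → ℂ, eval v (cj s) =
        eval v (cplx (reP s)) - Complex.I * eval v (cplx (imP s)) := by
      intro v
      rw [← cplx_sub s]
      simp
    have h1 := hkF z.rep z.F_rep
    have h2 := hkF (star z.rep) (Curve.F_star hΓ z.F_rep)
    have hne : eval z.rep (cj s) ≠ 0 := by
      intro h
      apply hnorm z hz
      rw [h, hsz]
    have hne' : eval (star z.rep) s ≠ 0 := by
      intro h
      apply hne
      rw [eval_cj', h, map_zero]
    have hz' : eval (star z.rep) (cj s) = 0 := by
      rw [eval_cj, hsz, map_zero]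
    have g1 := e1 z.rep
    have g2 := e2 z.rep
    have g3 := e1 (star z.rep)
    have g4 := e2 (star z.rep)
    rw [hsz] at g1
    rw [hz'] at g4
    have hI : Complex.I * Complex.I = -1 := Complex.I_mul_I
    have k1 : (a + Complex.I * b) * eval z.rep (cj s) = 0 := by
      rw [g2]
      linear_combination (2 : ℂ) * h1 + (a - Complex.I * b) * g1 -
        2 * b * eval z.rep (cplx (imP s)) * hI
    have k2 : (a - Complex.I * b) * eval (star z.rep) s = 0 := by
      rw [g3]
      linear_combination (2 : ℂ) * h2 + (a + Complex.I * b) * g4 -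
        2 * b * eval (star z.rep) (cplx (imP s)) * hI
    have k3 := (mul_eq_zero.1 k1).resolve_right hne
    have k4 := (mul_eq_zero.1 k2).resolve_right hne'
    have ha : a = 0 := by linear_combination (k3 + k4) / 2
    have hb : b = 0 := by
      have : Complex.I * b = 0 := by linear_combination (k3 - k4) / 2
      exact (mul_eq_zero.1 this).resolve_left Complex.I_ne_zero
    rcases hab with h | h
    · exact h ha
    · exact h hb
  · rintro a b hab p ⟨hpF, hp⟩
    by_contra hreal
    have h0 := hnorm ⟨p, hpF⟩ hreal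
    apply h0
    have e1 : eval p.rep s =
        eval p.rep (cplx (reP s)) + Complex.I * eval p.rep (cplx (imP s)) := by
      conv_lhs => rw [← cplx_add s]
      simp
    have e2 : eval p.rep (cj s) =
        eval p.rep (cplx (reP s)) - Complex.I * eval p.rep (cplx (imP s)) := by
      rw [← cplx_sub s]
      simp
    have hp' : (a : ℂ) * eval p.rep (cplx (reP s)) + (b : ℂ) * eval p.rep (cplx (imP s)) = 0 := by
      have h1 : eval p.rep (cplx (C a * reP s + C b * imP s)) = 0 := hp
      simpa [cplx] using h1
    show ‖eval p.rep (cj s)‖ = ‖eval p.rep s‖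
    rw [e1, e2]
    generalize eval p.rep (cplx (reP s)) = x at *
    generalize eval p.rep (cplx (imP s)) = y at *
    have hconj : ∀ u v : ℝ, ‖(u : ℂ) - Complex.I * v‖ = ‖(u : ℂ) + Complex.I * v‖ := by
      intro u v
      rw [← Complex.norm_conj]
      congr 1
      simp
    rcases hab with ha | hb
    · have hx : x = (-(b / a) : ℝ) * y := by
        have ha' : (a : ℂ) ≠ 0 := by exact_mod_cast ha
        push_cast
        field_simp
        linear_combination hp'
      have h1 := hconj (-(b / a)) 1
      have h2 : x - Complex.I * y = y * (((-(b / a) : ℝ) : ℂ) - Complex.I * (1 : ℝ)) := by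
        rw [hx]; push_cast; ring
      have h3 : x + Complex.I * y = y * (((-(b / a) : ℝ) : ℂ) + Complex.I * (1 : ℝ)) := by
        rw [hx]; push_cast; ring
      rw [h2, h3, norm_mul, norm_mul, h1]
    · have hy : y = (-(a / b) : ℝ) * x := by
        have hb' : (b : ℂ) ≠ 0 := by exact_mod_cast hb
        push_cast
        field_simp
        linear_combination hp'
      have h1 := hconj 1 (-(a / b))
      have h2 : x - Complex.I * y = x * (((1 : ℝ) : ℂ) - Complex.I * (-(a / b) : ℝ)) := by
        rw [hy]; push_cast; ring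
      have h3 : x + Complex.I * y = x * (((1 : ℝ) : ℂ) + Complex.I * (-(a / b) : ℝ)) := by
        rw [hy]; push_cast; ring
      rw [h2, h3, norm_mul, norm_mul, h1]

end Pool.Agent.Results.MP_42957e_ag.TotalPencil
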